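import Mathlib

/-! Harmonic labelings of graphs. -/

namespace Pool.Agent.Work.MP_997ab3_co

/-- `φ` is a bijection onto `ℤ` whose value at each vertex is the mean of its values at the
neighbours. -/
def IsHarmonicLabeling {W : Type*} (H : SimpleGraph W) (φ : W → ℤ) : Prop :=
  Function.Bijective φ ∧
    ∀ x, (φ x : ℚ) = (∑ᶠ y ∈ H.neighborSet x, (φ y : ℚ)) / (H.neighborSet x).ncard

end Pool.Agent.Work.MP_997ab3_co
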