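import Pool.Agent.Work.MP_997ab3_co.Defs
import Pool.Agent.Work.MP_997ab3_co.Main

open Pool.Agent.Work.MP_997ab3_co

/-- If `G` is a countably infinite graph of bounded degree all of whose connected components are
infinite, then the Cartesian product of `G` with the two-way infinite path has a harmonic
labeling. -/
theorem Pool.Agent.Results.MP_997ab3_co.InfiniteComponents.result :
    ∀ (V : Type) [Countable V] [Infinite V] (G : SimpleGraph V),
      (∃ Δ : ℕ, ∀ v, (G.neighborSet v).encard ≤ Δ) → (∀ v, {w | G.Reachable v w}.Infinite) →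
        ∃ φ : V × ℤ → ℤ, IsHarmonicLabeling (G.boxProd (SimpleGraph.hasse ℤ)) φ := by
  intro V _ _ G ⟨Δ, hΔ⟩ hG
  classical
  have hfin : ∀ v, (G.neighborSet v).Finite := fun v => Set.finite_of_encard_le_coe (hΔ v)
  let _ : G.LocallyFinite := fun v => (hfin v).fintype
  have hdeg : ∀ v, G.degree v ≤ Δ := fun v => by
    have := hΔ v
    rw [← SimpleGraph.coe_neighborFinset, Set.encard_coe_eq_coe_finsetCard] at this
    exact_mod_cast this
  obtain ⟨φ, hφ, hrec⟩ := exists_labeling (G := G) hG hdeg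
  refine ⟨φ, hφ, fun ⟨v, n⟩ => ?_⟩
  have hN : (G.boxProd (SimpleGraph.hasse ℤ)).neighborSet (v, n) =
      ↑(insert (v, n + 1) (insert (v, n - 1) ((G.neighborFinset v).image fun w => (w, n)))) := by
    ext ⟨w, m⟩
    simp only [SimpleGraph.mem_neighborSet, SimpleGraph.boxProd_adj, SimpleGraph.hasse_adj,
      Finset.coe_insert, Finset.coe_image, SimpleGraph.coe_neighborFinset, Set.mem_insert_iff,
      Set.mem_image, Prod.mk.injEq, Order.covBy_iff_add_one_eq]
    constructor
    · rintro (⟨h, rfl⟩ | ⟨h | h, rfl⟩)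
      · exact Or.inr (Or.inr ⟨w, h, rfl, rfl⟩)
      · exact Or.inl ⟨rfl, h.symm⟩
      · exact Or.inr (Or.inl ⟨rfl, by omega⟩)
    · rintro (⟨rfl, rfl⟩ | ⟨rfl, rfl⟩ | ⟨u, h, rfl, rfl⟩)
      · exact Or.inr ⟨Or.inl rfl, rfl⟩
      · exact Or.inr ⟨Or.inr (by omega), rfl⟩
      · exact Or.inl ⟨h, rfl⟩
  have h1 : (v, n - 1) ∉ (G.neighborFinset v).image fun w => (w, n) := by simp
  have h2 : (v, n + 1) ∉ insert (v, n - 1) ((G.neighborFinset v).image fun w => (w, n)) := by
    simp only [Finset.mem_insert, Prod.mk.injEq, Finset.mem_image, not_or, not_exists]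
    exact ⟨by omega, fun w => by omega⟩
  have hinj : Function.Injective fun w : V => (w, n) := fun a b h => (Prod.mk.inj h).1
  rw [hN, finsum_mem_coe_finset, Set.ncard_coe_finset, Finset.sum_insert h2, Finset.sum_insert h1,
    Finset.card_insert_of_notMem h2, Finset.card_insert_of_notMem h1,
    Finset.sum_image hinj.injOn, Finset.card_image_of_injective _ hinj,
    SimpleGraph.card_neighborFinset_eq_degree, eq_div_iff (by positivity)]
  have := congrArg (Int.cast : ℤ → ℚ) (hrec v n)
  push_cast at this ⊢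
  linarith
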